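import Pool.Agent.Helper95.C2.Assembly
import Pool.Agent.Helper31.C2.TRC

set_option autoImplicit false

/-!
# Sign patterns of the Liouville function of `𝔽_q[T]`, `q` even

All `2^n` sign patterns of the Liouville function occur along any `n` pairwise non-proportional
linear forms `A_j F + B_j` over the polynomial ring of an arbitrary finite field of characteristic
two, for at least `c q^(N/8)` monic `F` of every large degree `N`.  In particular, if the polynomials
over `𝔽_2` are numbered by the binary digits of the integers, all the `2^n` sign patterns occur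
among consecutive polynomials, infinitely often.

Method.  There is no quadratic character in characteristic two.  Work modulo `8` in the ring `W(K)`
of Witt vectors: the discriminant of a lift of `L`, modulo `8` and up to squares, gives the Liouville
value of `L` up to a factor depending on the parity of the degree.  For `L = A (G + h^8) + b` the
polynomial `M = A L' - A' L = A² G' - b A'` does not depend on `h` modulo `8`, and the discriminant
is a constant times an eighth power times `Res(M, L)`, which depends on `h` modulo `(2, M)` only.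
`G` is chosen such that for each of the forms there is a private prime `P` where
`M = ϖ (ϖ + 2) M_r`, `L = A h^8` modulo `ϖ` and `L = A (4 + h^8)` modulo `ϖ + 2` for a lift `ϖ` of
`P`.  So the sign changes with the absolute trace of `1 / h` modulo `P`.

Team project C2: helper95 (proof, CORE2, MAIN2), helpers 33 (Hensel splitting, Frobenius), 31 (sign
of the Frobenius permutation, traces), 51 (parity theorem, discriminants), 54 (congruences), 46
(resultants, traces, special primes), 85 (toggling).
-/

open Polynomial

namespace Pool.Agent.Results.MP_4fffd4_nt.CharTwoBlocks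

universe u

/-- The Liouville function of `K[X]`: `(-1)^Ω(F)`, where `Ω(F)` is the number of irreducible factors
of `F`, counted with multiplicity. -/
noncomputable def liouville {K : Type u} [Field K] (F : K[X]) : ℤ :=
  (-1) ^ Multiset.card (UniqueFactorizationMonoid.factors F)

/-- The polynomial over `𝔽_2` whose coefficients are the binary digits of `m`. -/
noncomputable def binary (m : ℕ) : (ZMod 2)[X] :=
  ∑ i ∈ Finset.range m, C ((m / 2 ^ i % 2 : ℕ) : ZMod 2) * X ^ i

/-- the digits `0`, `1` as elements of `𝔽_2` -/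
noncomputable def dig : Fin (Fintype.card (ZMod 2)) ≃ ZMod 2 :=
  Equiv.ofBijective (fun x => ((x : ℕ) : ZMod 2)) (by
    rw [Fintype.bijective_iff_injective_and_card]
    refine ⟨?_, by simp⟩
    intro x y h
    have hx : (x : ℕ) < 2 := lt_of_lt_of_eq x.2 (ZMod.card 2)
    have hy : (y : ℕ) < 2 := lt_of_lt_of_eq y.2 (ZMod.card 2)
    have h1 : (x : ℕ) % 2 = (y : ℕ) % 2 := (ZMod.natCast_eq_natCast_iff _ _ 2).1 h
    exact Fin.ext (by omega))

lemma dig_apply (x : Fin (Fintype.card (ZMod 2))) : dig x = ((x : ℕ) : ZMod 2) := rfl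

lemma phi_dig (m : ℕ) : Pool.Agent.W269.BL.phi dig m = binary m := by
  unfold Pool.Agent.W269.BL.phi binary
  refine Finset.sum_congr rfl fun i _ => ?_
  rw [dig_apply]
  simp only [ZMod.card]

theorem result :
    -- (1) pairwise non-proportional linear forms over every finite field of characteristic two
    (∀ (K : Type u) [Field K] [Fintype K], (2 : K) = 0 →
      ∀ (n : ℕ) (A B : Fin n → K[X]), (∀ j, A j ≠ 0) → (∀ i j, i ≠ j → A i * B j ≠ A j * B i) →
      ∀ w : Fin n → ℤ, (∀ j, w j = 1 ∨ w j = -1) →
      ∃ c : ℝ, 0 < c ∧ ∃ N₀ : ℕ, ∀ N : ℕ, N₀ ≤ N →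
        c * (Fintype.card K : ℝ) ^ ((N : ℝ) / 8) ≤
          ({F : K[X] | F.Monic ∧ F.natDegree = N ∧
            ∀ j, A j * F + B j ≠ 0 ∧ liouville (A j * F + B j) = w j}.ncard : ℝ)) ∧
    -- (2) consecutive polynomials over `𝔽_2`, numbered by binary digits
    (∀ (n : ℕ) (w : Fin n → ℤ), (∀ j, w j = 1 ∨ w j = -1) → ∀ M : ℕ,
      ∃ m : ℕ, M ≤ m ∧ ∀ j : Fin n, liouville (binary (m + (j + 1))) = w j) := by
  constructor
  · intro K _ _ hK n A B hA hAB w hw
    have : CharP K 2 := CharTwo.of_one_ne_zero_of_two_eq_zero one_ne_zero hK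
    obtain ⟨r, hr⟩ := Pool.Agent.Helper95.C2.Assembly.main2
      (Pool.Agent.Helper31.C2.TRC.main Pool.Agent.Helper33.C2.HEN.main) K n A B hA hAB w hw
    have hq1 : (1 : ℝ) ≤ Fintype.card K := by exact_mod_cast Fintype.card_pos
    have hq0 : (0 : ℝ) < Fintype.card K := by linarith
    refine ⟨((Fintype.card K : ℝ) ^ (r + 1))⁻¹, by positivity, 8 * r, fun N hN => ?_⟩
    set m := N / 8 - r with hm
    have h1 : r ≤ N / 8 := by omega
    have h2 : 8 * (m + r) ≤ N := by omega
    have h3 : (N : ℝ) / 8 ≤ ((m + (r + 1) : ℕ) : ℝ) := by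
      rw [div_le_iff₀ (by norm_num)]
      have h5 : N ≤ (m + (r + 1)) * 8 := by omega
      exact_mod_cast h5
    have h6 : (Fintype.card K : ℝ) ^ ((N : ℝ) / 8) ≤ (Fintype.card K : ℝ) ^ (m + (r + 1)) := by
      rw [← Real.rpow_natCast]
      exact Real.rpow_le_rpow_of_exponent_le hq1 h3
    have h7 : ((Fintype.card K : ℝ) ^ (r + 1))⁻¹ * (Fintype.card K : ℝ) ^ ((N : ℝ) / 8) ≤
        (Fintype.card K : ℝ) ^ m := by
      rw [inv_mul_le_iff₀ (by positivity), ← pow_add, add_comm (r + 1) m]
      exact h6
    refine h7.trans ?_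
    exact_mod_cast hr N m h2
  · intro n w hw M
    obtain ⟨m, hm, h⟩ := Pool.Agent.Helper95.C2.Assembly.enum2.{0}
      (Pool.Agent.Helper31.C2.TRC.main Pool.Agent.Helper33.C2.HEN.main) (ZMod 2) dig
      (by rw [dig_apply]; rfl) n w hw M
    refine ⟨m, hm, fun j => ?_⟩
    have e : m + ((j : ℕ) + 1) = m + 1 + j := by ring
    rw [e, ← phi_dig]
    exact h j

end Pool.Agent.Results.MP_4fffd4_nt.CharTwoBlocks
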