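import Mathlib
import Pool.Agent.Helper5.FS.FinOne
import Pool.Agent.Helper3.FS.TWX
import Pool.Agent.Helper33.FS.CNT
import Pool.Agent.Helper33.FS.FLIP
import Pool.Agent.Helper33.FS.POW
import Pool.Agent.Helper53.FS.WALSH
import Pool.Agent.Helper53.FS.TRUNC
import Pool.Agent.Helper71.FS.SUM
import Pool.Agent.Helper89.FS.NEG
import Pool.Agent.Helper9.FS.BAD
import Pool.Agent.Helper9.FS.TAUONE
import Pool.Agent.Helper91.FS.EXP
import Pool.Agent.Helper31.FS.PARONE

/-!
# How many random signs make every sequence of signs normal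

`F` is a sequence of signs, for instance the Liouville function, and `u` a completely multiplicative
function with ONE random sign for each class of primes, for instance for the primes in `[N, N ^ D)`,
`D < 2`, so that only about `c log log x` random signs, `c > 1 / log 2`, are used up to `x`. Then `F u` has
almost surely all the sign patterns of every length `k` with density exactly `2 ^ (-k)`, also along any
pairwise non-proportional linear forms and any sets of places fixed in advance. This is the exact number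
of random signs: if at most `θ log log x / log 2` signs, `θ < 1`, are used up to `x`, then there is one
sequence `F` such that the value `1` does not have the frequency `1 / 2` in `F u` for ANY choice of the
signs.
-/

set_option autoImplicit false

open MeasureTheory ProbabilityTheory Filter Topology

namespace Pool.Agent.Results.MP_4fffd4_nt.FewRandomSigns

/-- the sign of a bit -/
def sign (b : Bool) : ℝ := if b then 1 else -1

/-- the completely multiplicative function whose value at a prime `p` is the sign of the bit `x (ι p)` -/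
noncomputable def signs (ι : ℕ → ℕ) (x : ℕ → Bool) (n : ℕ) : ℝ :=
  ∏ p ∈ n.primeFactors, sign (x (ι p)) ^ n.factorization p

/-- `X 0, X 1, …` are independent bits with `P(X j = true) = 1 / 2` -/
structure FairBits {Ω : Type} [MeasurableSpace Ω] (P : Measure Ω) (X : ℕ → Ω → Bool) : Prop where
  prob : IsProbabilityMeasure P
  meas : ∀ j, Measurable (X j)
  indep : iIndepFun X P
  fair : ∀ j, P {ω | X j ω = true} = 1 / 2

/-- The classes of the primes are short: the primes of each class lie in an interval `[t, t ^ C]`, and there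
is an `s < log 2` such that for all but finitely many classes the sum of the reciprocals of the primes of
the class is at most `s`. -/
structure Short (ι : ℕ → ℕ) : Prop where
  range : ∃ C : ℕ, ∀ p q : ℕ, p.Prime → q.Prime → ι p = ι q → q ≤ p ^ C
  mass : ∃ s : ℝ, s < Real.log 2 ∧ ∃ P₀ : ℕ, ∀ p₀ : ℕ, p₀.Prime → P₀ ≤ p₀ →
    ∀ F : Finset ℕ, (∀ p ∈ F, p.Prime ∧ ι p = ι p₀) → ∑ p ∈ F, (1 : ℝ) / p ≤ s

/-- There are few classes: the number `m` of the classes of the primes up to `N` satisfies
`2 ^ m ≤ (log N) ^ θ`, i.e. `m ≤ θ log₂ log N`, for some `θ < 1` and all large `N`. -/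
def Few (ι : ℕ → ℕ) : Prop :=
  ∃ θ : ℝ, θ < 1 ∧ ∀ᶠ N : ℕ in atTop,
    (2 : ℝ) ^ (((Finset.Icc 1 N).filter Nat.Prime).image ι).card ≤ Real.log N ^ θ

/-- the classes `m l ≤ log log p < (m + 1) l`, that is, the primes in `[N, N ^ D)`, `D = exp l` -/
noncomputable def level (l : ℝ) (p : ℕ) : ℕ := ⌊Real.log (Real.log p) / l⌋₊

/-- the values of `F` are `1` and `-1` -/
def IsSign (F : ℕ → ℝ) : Prop := ∀ n, F n = 1 ∨ F n = -1

/-- the number of the `1 ≤ n ≤ N` in `A`, divided by `N` -/
noncomputable def freq (A : Set ℕ) (N : ℕ) : ℝ := ({n : ℕ | 1 ≤ n ∧ n ≤ N ∧ n ∈ A}.ncard : ℝ) / N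

/-- the sign pattern `e` stands in `F` at the place `n` along the linear forms `a_j n + b_j` -/
def StandsAlong (F : ℕ → ℝ) {k : ℕ} (a b : Fin k → ℕ) (e : Fin k → ℝ) (n : ℕ) : Prop :=
  ∀ j : Fin k, F (a j * n + b j) = e j

open Pool.Agent.Helper5.FS in
theorem asone' : S_ASONE :=
  asone (mom (one Pool.Agent.Helper53.FS.walsh (Pool.Agent.Helper53.FS.trunc Pool.Agent.Helper33.FS.cnt))
    Pool.Agent.Helper33.FS.flip Pool.Agent.Helper3.FS.twx Pool.Agent.Helper9.FS.bad)
    (Pool.Agent.Helper31.FS.parone Pool.Agent.Helper33.FS.pow Pool.Agent.Helper71.FS.sum)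
    Pool.Agent.Helper9.FS.tauone

lemma freq_eq (A : Set ℕ) (N : ℕ) :
    freq A N = (∑ m ∈ Finset.Icc 1 N, A.indicator (fun _ => (1 : ℝ)) m) / N := by
  classical
  unfold freq
  have h1 : {m : ℕ | 1 ≤ m ∧ m ≤ N ∧ m ∈ A} =
      (((Finset.Icc 1 N).filter (fun m => m ∈ A) : Finset ℕ) : Set ℕ) := by
    ext m
    simp [and_assoc]
  have h2 : ∑ m ∈ Finset.Icc 1 N, A.indicator (fun _ => (1 : ℝ)) m =
      (((Finset.Icc 1 N).filter (fun m => m ∈ A)).card : ℝ) := by
    rw [Finset.card_filter]
    push_cast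
    refine Finset.sum_congr rfl fun m _ => ?_
    by_cases h : m ∈ A <;> simp [h]
  rw [h1, Set.ncard_coe_finset, h2]

lemma sign_or (b : Bool) : sign b = 1 ∨ sign b = -1 := by
  cases b
  · right; simp [sign]
  · left; simp [sign]

lemma isSign_signs (ι : ℕ → ℕ) (x : ℕ → Bool) : IsSign (signs ι x) := by
  intro n
  unfold signs
  have key : ∀ s : Finset ℕ, (∏ p ∈ s, sign (x (ι p)) ^ n.factorization p) = 1 ∨
      (∏ p ∈ s, sign (x (ι p)) ^ n.factorization p) = -1 := by
    classical
    intro s
    induction s using Finset.induction_on with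
    | empty => left; simp
    | insert p s hp ih =>
      rw [Finset.prod_insert hp]
      have h1 : sign (x (ι p)) ^ n.factorization p = 1 ∨ sign (x (ι p)) ^ n.factorization p = -1 := by
        rcases sign_or (x (ι p)) with h | h
        · left; rw [h, one_pow]
        · rw [h]; exact neg_one_pow_eq_or ℝ _
      rcases h1 with h1 | h1 <;> rcases ih with h2 | h2 <;> rw [h1, h2] <;> norm_num
  exact key _

/-- the indicator function of a pattern -/
lemma ind_eq {k : ℕ} (f e : Fin k → ℝ) (hf : ∀ j, f j = 1 ∨ f j = -1) (he : ∀ j, e j = 1 ∨ e j = -1) :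
    (Set.indicator {f : Fin k → ℝ | ∀ j, f j = e j} (fun _ => (1 : ℝ)) f) =
      (1 / 2) ^ k * ∑ T : Finset (Fin k), (∏ j ∈ T, e j) * ∏ j ∈ T, f j := by
  classical
  have h1 : ∑ T : Finset (Fin k), (∏ j ∈ T, e j) * ∏ j ∈ T, f j = ∏ j : Fin k, (1 + e j * f j) := by
    rw [Finset.prod_one_add, Finset.powerset_univ]
    refine Finset.sum_congr rfl fun T _ => ?_
    rw [Finset.prod_mul_distrib]
  rw [h1]
  have h2 : ((1 : ℝ) / 2) ^ k = ∏ _j : Fin k, (1 / 2 : ℝ) := by simp
  rw [h2, ← Finset.prod_mul_distrib]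
  by_cases h : ∀ j, f j = e j
  · rw [Set.indicator_of_mem (by exact h)]
    symm
    apply Finset.prod_eq_one
    intro j _
    rw [h j]
    rcases he j with h' | h' <;> rw [h'] <;> norm_num
  · rw [Set.indicator_of_notMem (by exact h)]
    push Not at h
    obtain ⟨j, hj⟩ := h
    symm
    apply Finset.prod_eq_zero (Finset.mem_univ j)
    rcases hf j with h1 | h1 <;> rcases he j with h2 | h2 <;> rw [h1, h2] at hj ⊢ <;>
      first | exact absurd rfl hj | norm_num

/-- from vanishing correlations to patterns, along a set of places -/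
lemma patterns {F : ℕ → ℝ} (hF : IsSign F) (A : Set ℕ)
    (hc : ∀ (k : ℕ) (a b : Fin k → ℕ), 0 < k → (∀ i, 1 ≤ a i) →
      (∀ i j, i ≠ j → a i * b j ≠ a j * b i) →
      Tendsto (fun N : ℕ => (∑ n ∈ Finset.Icc 1 N, A.indicator (fun _ => (1 : ℝ)) n *
        ∏ i, F (a i * n + b i)) / (N : ℝ)) atTop (𝓝 0))
    (k : ℕ) (a b : Fin k → ℕ) (ha : ∀ i, 1 ≤ a i) (hab : ∀ i j, i ≠ j → a i * b j ≠ a j * b i)
    (e : Fin k → ℝ) (he : ∀ j, e j = 1 ∨ e j = -1) :
    Tendsto (fun N => freq {n | n ∈ A ∧ StandsAlong F a b e n} N - (1 / 2) ^ k * freq A N)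
      atTop (𝓝 0) := by
  classical
  -- the correlations on subsets
  have hT : ∀ T : Finset (Fin k), T.Nonempty →
      Tendsto (fun N : ℕ => (∑ n ∈ Finset.Icc 1 N, A.indicator (fun _ => (1 : ℝ)) n *
        ∏ j ∈ T, F (a j * n + b j)) / (N : ℝ)) atTop (𝓝 0) := by
    intro T hTn
    have h1 := hc T.card (fun i => a (T.orderEmbOfFin rfl i)) (fun i => b (T.orderEmbOfFin rfl i))
      (Finset.card_pos.2 hTn) (fun i => ha _) (fun i j hij => hab _ _ (fun h => hij
        ((T.orderEmbOfFin rfl).injective h)))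
    refine h1.congr fun N => ?_
    congr 1
    refine Finset.sum_congr rfl fun n _ => ?_
    congr 1
    have h2 : T = Finset.univ.image (T.orderEmbOfFin rfl) := by
      ext x
      simp only [Finset.mem_image, Finset.mem_univ, true_and]
      constructor
      · intro hx
        have : x ∈ Set.range (T.orderEmbOfFin rfl) := by
          rw [Finset.range_orderEmbOfFin]; exact hx
        exact this
      · rintro ⟨i, rfl⟩
        exact Finset.orderEmbOfFin_mem _ _ _
    conv_rhs => rw [h2]
    rw [Finset.prod_image (fun i _ j _ h => (T.orderEmbOfFin rfl).injective h)]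
  have hsum : Tendsto (fun N : ℕ => (1 / 2 : ℝ) ^ k * ∑ T ∈ (Finset.univ : Finset (Finset (Fin k))).erase ∅,
      (∏ j ∈ T, e j) * ((∑ n ∈ Finset.Icc 1 N, A.indicator (fun _ => (1 : ℝ)) n *
        ∏ j ∈ T, F (a j * n + b j)) / (N : ℝ))) atTop (𝓝 0) := by
    have h1 : Tendsto (fun N : ℕ => ∑ T ∈ (Finset.univ : Finset (Finset (Fin k))).erase ∅,
      (∏ j ∈ T, e j) * ((∑ n ∈ Finset.Icc 1 N, A.indicator (fun _ => (1 : ℝ)) n *
        ∏ j ∈ T, F (a j * n + b j)) / (N : ℝ))) atTop
        (𝓝 (∑ T ∈ (Finset.univ : Finset (Finset (Fin k))).erase ∅, (∏ j ∈ T, e j) * 0)) := by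
      refine tendsto_finsetSum _ fun T hTm => ?_
      exact (hT T (Finset.nonempty_iff_ne_empty.2 (Finset.ne_of_mem_erase hTm))).const_mul _
    simpa using h1.const_mul ((1 / 2 : ℝ) ^ k)
  refine hsum.congr fun N => ?_
  rw [freq_eq, freq_eq]
  have h1 : ∀ n, ({n | n ∈ A ∧ StandsAlong F a b e n} : Set ℕ).indicator (fun _ => (1 : ℝ)) n =
      A.indicator (fun _ => (1 : ℝ)) n * ((1 / 2) ^ k * ∑ T : Finset (Fin k),
        (∏ j ∈ T, e j) * ∏ j ∈ T, F (a j * n + b j)) := by
    intro n
    rw [← ind_eq (fun j => F (a j * n + b j)) e (fun j => hF _) he]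
    by_cases hA : n ∈ A
    · rw [Set.indicator_of_mem hA, one_mul]
      by_cases hs : StandsAlong F a b e n
      · rw [Set.indicator_of_mem (by exact ⟨hA, hs⟩), Set.indicator_of_mem (by exact hs)]
      · rw [Set.indicator_of_notMem (fun h => hs h.2), Set.indicator_of_notMem (by exact hs)]
    · rw [Set.indicator_of_notMem hA, zero_mul, Set.indicator_of_notMem (fun h => hA h.1)]
  simp only [h1]
  have h2 : ∀ n, A.indicator (fun _ => (1 : ℝ)) n * ((1 / 2) ^ k * ∑ T : Finset (Fin k),
        (∏ j ∈ T, e j) * ∏ j ∈ T, F (a j * n + b j)) =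
      (1 / 2) ^ k * A.indicator (fun _ => (1 : ℝ)) n + (1 / 2 : ℝ) ^ k *
        ∑ T ∈ (Finset.univ : Finset (Finset (Fin k))).erase ∅, (∏ j ∈ T, e j) *
          (A.indicator (fun _ => (1 : ℝ)) n * ∏ j ∈ T, F (a j * n + b j)) := by
    intro n
    rw [← Finset.add_sum_erase _ _ (Finset.mem_univ (∅ : Finset (Fin k)))]
    simp only [Finset.prod_empty, mul_one]
    have : ∀ T : Finset (Fin k), (∏ j ∈ T, e j) *
          (A.indicator (fun _ => (1 : ℝ)) n * ∏ j ∈ T, F (a j * n + b j)) =
        A.indicator (fun _ => (1 : ℝ)) n * ((∏ j ∈ T, e j) * ∏ j ∈ T, F (a j * n + b j)) := by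
      intro T; ring
    simp only [this]
    rw [← Finset.mul_sum]
    ring
  simp only [h2]
  rw [Finset.sum_add_distrib, ← Finset.mul_sum, ← Finset.mul_sum, Finset.sum_comm]
  simp only [← Finset.mul_sum]
  rw [add_div, mul_div_assoc, add_sub_cancel_left, mul_div_assoc, Finset.sum_div]
  congr 1
  refine Finset.sum_congr rfl fun T _ => ?_
  rw [mul_div_assoc]

/-- **Few random signs make every sequence of signs normal; the exact number of signs.**
(1) If the classes are short, `F` is any sequence of signs and `S_0, S_1, …` are any sets of places, fixed in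
advance, then almost surely every sign pattern stands in `F u` along all pairwise non-proportional linear
forms with density `2 ^ (-k)`, in all the positive integers and in each `S_i`.
(2) If there are few classes, then there is one sequence of signs `F` such that the frequency of `1` in `F u`
does not tend to `1 / 2`, for EVERY choice of the signs.
(3) The classes `level l` are short for `0 < l < log 2`, and there are few of them for `l > log 2`. -/
theorem result :
    (∀ ι : ℕ → ℕ, Short ι → ∀ (Ω : Type) [MeasurableSpace Ω] (P : Measure Ω) (X : ℕ → Ω → Bool),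
      FairBits P X → ∀ (F : ℕ → ℝ), IsSign F → ∀ S : ℕ → Set ℕ,
      ∀ᵐ ω ∂P, ∀ (k : ℕ) (a b : Fin k → ℕ), (∀ i, 1 ≤ a i) → (∀ i j, i ≠ j → a i * b j ≠ a j * b i) →
        ∀ e : Fin k → ℝ, (∀ j, e j = 1 ∨ e j = -1) →
        Tendsto (freq {n | StandsAlong (fun m => F m * signs ι (fun j => X j ω) m) a b e n}) atTop
          (𝓝 ((1 / 2) ^ k)) ∧
        ∀ i : ℕ, Tendsto (fun N =>
          freq {n | n ∈ S i ∧ StandsAlong (fun m => F m * signs ι (fun j => X j ω) m) a b e n} N -
            (1 / 2) ^ k * freq (S i) N) atTop (𝓝 0)) ∧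
    (∀ ι : ℕ → ℕ, Few ι → ∃ F : ℕ → ℝ, IsSign F ∧ ∀ x : ℕ → Bool,
      ¬ Tendsto (freq {n | F n * signs ι x n = 1}) atTop (𝓝 (1 / 2))) ∧
    (∀ l : ℝ, 0 < l → l < Real.log 2 → Short (level l)) ∧ (∀ l : ℝ, Real.log 2 < l → Few (level l)) := by
  classical
  refine ⟨fun ι hι Ω _ P X hX F hF S => ?_, fun ι hι => ?_, fun l h0 hl => ?_, fun l hl => ?_⟩
  · -- one set of places
    have hone : ∀ A : Set ℕ, ∀ᵐ ω ∂P, ∀ (k : ℕ) (a b : Fin k → ℕ), (∀ i, 1 ≤ a i) →
        (∀ i j, i ≠ j → a i * b j ≠ a j * b i) → ∀ e : Fin k → ℝ, (∀ j, e j = 1 ∨ e j = -1) →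
        Tendsto (fun N =>
          freq {n | n ∈ A ∧ StandsAlong (fun m => F m * signs ι (fun j => X j ω) m) a b e n} N -
            (1 / 2) ^ k * freq A N) atTop (𝓝 0) := by
      intro A
      have hall : ∀ᵐ ω ∂P, ∀ (k : ℕ), ∀ (T : Finset (Fin k)) (a b : Fin k → ℕ), T.Nonempty →
          (∀ i ∈ T, 1 ≤ a i) → (∀ i ∈ T, ∀ j ∈ T, i ≠ j → a i * b j ≠ a j * b i) →
          Tendsto (fun N : ℕ => (∑ n ∈ Finset.Icc 1 N, ((A.indicator (fun _ => (1 : ℝ)) n : ℝ) : ℂ) *
            ((∏ i, ((F (a i * n + b i) : ℝ) : ℂ)) *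
            ∏ i ∈ T, ((signs ι (fun j => X j ω) (a i * n + b i) : ℝ) : ℂ))) / (N : ℂ)) atTop (𝓝 0) := by
        rw [ae_all_iff]
        intro k
        refine Pool.Agent.Helper5.FS.elliott_one asone' ι ⟨hι.range, hι.mass⟩ P X
          ⟨hX.prob, hX.meas, hX.indep, hX.fair⟩ k (fun _ n => ((F n : ℝ) : ℂ))
          (fun n => ((A.indicator (fun _ => (1 : ℝ)) n : ℝ) : ℂ)) (fun i n => ?_) (fun n => ?_)
        · rw [Complex.norm_real]
          rcases hF n with h | h <;> rw [h] <;> simp
        · rw [Complex.norm_real]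
          by_cases h : n ∈ A <;> simp [h]
      filter_upwards [hall] with ω hω k a b ha hab e he
      refine patterns (fun n => ?_) A (fun k' a' b' hk' ha' hab' => ?_) k a b ha hab e he
      · rcases hF n with h1 | h1 <;> rcases isSign_signs ι (fun j => X j ω) n with h2 | h2 <;>
          simp only [h1, h2] <;> norm_num
      · have : Nonempty (Fin k') := ⟨⟨0, hk'⟩⟩
        have h1 := hω k' Finset.univ a' b' Finset.univ_nonempty (fun i _ => ha' i)
          (fun i _ j _ hij => hab' i j hij)
        have h2 : Tendsto (fun N : ℕ => (((∑ n ∈ Finset.Icc 1 N, A.indicator (fun _ => (1 : ℝ)) n *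
            ∏ i, (F (a' i * n + b' i) * signs ι (fun j => X j ω) (a' i * n + b' i))) / (N : ℝ) : ℝ) : ℂ))
            atTop (𝓝 ((0 : ℝ) : ℂ)) := by
          rw [Complex.ofReal_zero]
          refine h1.congr fun N => ?_
          push_cast
          congr 1
          refine Finset.sum_congr rfl fun n _ => ?_
          rw [Finset.prod_mul_distrib]
        have h3 := (Complex.continuous_re.tendsto _).comp h2
        refine h3.congr fun N => ?_
        exact Complex.ofReal_re _
    have hB : ∀ᵐ ω ∂P, ∀ (i : ℕ) (k : ℕ) (a b : Fin k → ℕ), (∀ i, 1 ≤ a i) →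
        (∀ i j, i ≠ j → a i * b j ≠ a j * b i) → ∀ e : Fin k → ℝ, (∀ j, e j = 1 ∨ e j = -1) →
        Tendsto (fun N =>
          freq {n | n ∈ S i ∧ StandsAlong (fun m => F m * signs ι (fun j => X j ω) m) a b e n} N -
            (1 / 2) ^ k * freq (S i) N) atTop (𝓝 0) := by
      rw [ae_all_iff]
      exact fun i => hone (S i)
    filter_upwards [hone Set.univ, hB] with ω h1 h2 k a b ha hab e he
    refine ⟨?_, fun i => h2 i k a b ha hab e he⟩
    have h4 : Tendsto (freq Set.univ) atTop (𝓝 1) := by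
      refine tendsto_const_nhds.congr' ?_
      filter_upwards [eventually_ge_atTop 1] with N hN
      rw [freq_eq]
      have hN' : (N : ℝ) ≠ 0 := by positivity
      simp [hN']
    have h5 := (h1 k a b ha hab e he).add (h4.const_mul ((1 / 2 : ℝ) ^ k))
    rw [zero_add, mul_one] at h5
    refine h5.congr fun N => ?_
    rw [sub_add_cancel]
    congr 1
    ext m
    simp
  · obtain ⟨w, hw, h⟩ := Pool.Agent.Helper89.FS.negone ι hι 1 (fun _ => 1) (fun _ => 0) (fun _ => le_rfl)
    refine ⟨w, hw, fun x hx => ?_⟩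
    have h0 := Pool.Agent.Helper5.FS.not_tendsto_of_frequently (D := fun N : ℕ => (N : ℝ))
      (by filter_upwards [eventually_ge_atTop 1] with N hN; exact_mod_cast hN) (h x)
    apply h0
    have h1 : Tendsto (fun N => 2 * freq {n | w n * signs ι x n = 1} N - freq Set.univ N) atTop
        (𝓝 (2 * (1 / 2) - 1)) := by
      have h4 : Tendsto (freq Set.univ) atTop (𝓝 1) := by
        refine tendsto_const_nhds.congr' ?_
        filter_upwards [eventually_ge_atTop 1] with N hN
        rw [freq_eq]
        have hN' : (N : ℝ) ≠ 0 := by positivity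
        simp [hN']
      exact (hx.const_mul 2).sub h4
    rw [show (2 * (1 / 2) - 1 : ℝ) = 0 by norm_num] at h1
    refine h1.congr fun N => ?_
    rw [freq_eq, freq_eq, ← mul_div_assoc, ← sub_div]
    congr 1
    rw [Finset.mul_sum, ← Finset.sum_sub_distrib]
    refine Finset.sum_congr rfl fun n _ => ?_
    have h6 : ∏ i : Fin 1, Pool.Agent.Helper5.FS.tw ι x ((fun _ => 1) i * n + (fun _ => 0) i) =
        signs ι x n := by
      rw [Fin.prod_univ_one]
      have h60 : (fun _ => 1 : Fin 1 → ℕ) 0 * n + (fun _ => 0 : Fin 1 → ℕ) 0 = n := by simp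
      rw [h60]
      rfl
    have h7 : w n * signs ι x n = 1 ∨ w n * signs ι x n = -1 := by
      rcases hw n with h1 | h1 <;> rcases isSign_signs ι x n with h2 | h2 <;> rw [h1, h2] <;> norm_num
    rw [Set.indicator_of_mem (Set.mem_univ n)]
    refine Eq.trans ?_ (congrArg (fun t => w n * t) h6).symm
    show _ = w n * signs ι x n
    rcases h7 with h8 | h8
    · rw [Set.indicator_of_mem (by exact h8), h8]
      norm_num
    · rw [Set.indicator_of_notMem (fun h => by
        have h9 : w n * signs ι x n = 1 := h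
        rw [h8] at h9; norm_num at h9), h8]
      norm_num
  · obtain ⟨h1, h2⟩ := Pool.Agent.Helper91.FS.expone.1 l h0 hl
    exact ⟨h1, h2⟩
  · exact Pool.Agent.Helper91.FS.expone.2 l hl

end Pool.Agent.Results.MP_4fffd4_nt.FewRandomSigns
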