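import Mathlib
import Pool.Agent.Helper34.FY.Ell

/-!
# Modifications of the Liouville function by a process of positive entropy at the primes

The values of the Liouville function `λ` at the primes are multiplied by the signs of ANY ergodic
stationary process of signs of positive entropy, however biased (few changes) or dependent.  Almost surely
the modified function has every sign pattern of every length `k` with natural density exactly `2 ^ (-k)`,
so its block complexity is `2 ^ k`; the same holds along every set of places fixed in advance, and the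
patterns of the modified function are independent of those of `λ` at the same places.
-/

set_option autoImplicit false

open MeasureTheory Filter Topology

namespace Pool.Agent.Results.MP_4fffd4_nt.PositiveEntropyModifications

/-- two-sided sequences of signs `(y_j)`, `j ∈ ℤ` -/
abbrev Signs : Type := ℤ → ({-1, 1} : Set ℝ)

/-- the σ-algebra generated by the signs `y_j`, `j < n` -/
@[reducible] noncomputable def Before (n : ℤ) : MeasurableSpace Signs :=
  MeasurableSpace.comap (fun (y : Signs) (i : Set.Iio n) => y i) MeasurableSpace.pi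

/-- `μ` is the law of an ergodic stationary process of signs with positive entropy: `y_0` is not almost
surely a measurable function of the past `(y_j)`, `j < 0` -/
structure PositiveEntropy (μ : Measure Signs) : Prop where
  prob : IsProbabilityMeasure μ
  ergodic : Ergodic (fun (y : Signs) (j : ℤ) => y (j + 1)) μ
  undetermined : ¬ ∃ h : Signs → ℝ, Measurable[Before 0] h ∧ ∀ᵐ y ∂μ, (y 0 : ℝ) = h y

/-- the Liouville function -/
noncomputable def liouville (n : ℕ) : ℝ := (-1) ^ ArithmeticFunction.cardFactors n

/-- `F` is multiplicative with values `1` and `-1` at the positive integers -/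
structure MultSign (F : ℕ → ℝ) : Prop where
  one : F 1 = 1
  mul : ∀ m n : ℕ, Nat.Coprime m n → F (m * n) = F m * F n
  val : ∀ n : ℕ, 1 ≤ n → F n = 1 ∨ F n = -1

/-- `F y` is a multiplicative function with values `1` and `-1` whose value at the `j`-th prime
`p_j`, `j = 0, 1, …`, is `λ(p_j) y_j = -y_j`; the values at the powers of `p_j` may be arbitrary
(measurable) functions of the `y_i`, `i ≤ j` (for instance `F y` completely multiplicative) -/
structure Modification (F : Signs → ℕ → ℝ) : Prop where
  mult : ∀ y, MultSign (F y)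
  prime : ∀ y (j : ℕ), F y (Nat.nth Nat.Prime j) = liouville (Nat.nth Nat.Prime j) * y j
  adapted : ∀ j e : ℕ, Measurable[Before (j + 1)] fun y => F y (Nat.nth Nat.Prime j ^ e)

/-- the sign pattern `e` stands in `F` at the place `m`: `F(m + 1), …, F(m + k)` are the `e_j` -/
def StandsAt (F : ℕ → ℝ) {k : ℕ} (e : Fin k → ℝ) (m : ℕ) : Prop := ∀ j : Fin k, F (m + (j + 1)) = e j

/-- the number of the `1 ≤ m ≤ N` in `A`, divided by `N` -/
noncomputable def freq (A : Set ℕ) (N : ℕ) : ℝ := ({m : ℕ | 1 ≤ m ∧ m ≤ N ∧ m ∈ A}.ncard : ℝ) / N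

lemma liouville_mul (m n : ℕ) (h : Nat.Coprime m n) : liouville (m * n) = liouville m * liouville n := by
  unfold liouville
  rcases Nat.eq_zero_or_pos m with hm | hm
  · subst hm
    rw [Nat.coprime_zero_left] at h
    subst h
    simp
  rcases Nat.eq_zero_or_pos n with hn | hn
  · subst hn
    rw [Nat.coprime_zero_right] at h
    subst h
    simp
  · rw [ArithmeticFunction.cardFactors_mul hm.ne' hn.ne', pow_add]

lemma liouville_or (n : ℕ) : liouville n = 1 ∨ liouville n = -1 := by
  unfold liouville
  exact neg_one_pow_eq_or ℝ _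

lemma freq_eq (A : Set ℕ) (N : ℕ) :
    freq A N = (∑ m ∈ Finset.Icc 1 N, A.indicator (fun _ => (1 : ℝ)) m) / N := by
  classical
  unfold freq
  have h1 : {m : ℕ | 1 ≤ m ∧ m ≤ N ∧ m ∈ A} = (((Finset.Icc 1 N).filter (fun m => m ∈ A) : Finset ℕ) : Set ℕ) := by
    ext m
    simp [and_assoc]
  have h2 : ∑ m ∈ Finset.Icc 1 N, A.indicator (fun _ => (1 : ℝ)) m =
      (((Finset.Icc 1 N).filter (fun m => m ∈ A)).card : ℝ) := by
    rw [Finset.card_filter]
    push_cast
    refine Finset.sum_congr rfl fun m _ => ?_
    by_cases h : m ∈ A <;> simp [h]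
  rw [h1, Set.ncard_coe_finset, h2]

/-- **All patterns.** Let `F y` be the modifications of the Liouville function by ANY ergodic stationary
process of signs of positive entropy, and `S_0, S_1, …` any sets of positive integers, fixed in advance.
Almost surely, for all sign patterns `e` of all lengths `k`: (1) `e` stands in `F y` with natural density
`2 ^ (-k)`; (2) along every `S_i` as well; (3) for every sign pattern `t` of every length the places where
`t` stands in `λ` and `e` stands in `F y` are `2 ^ (-k)` of those where `t` stands in `λ`. -/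
theorem result (μ : Measure Signs) (hμ : PositiveEntropy μ) (F : Signs → ℕ → ℝ) (hF : Modification F)
    (S : ℕ → Set ℕ) :
    ∀ᵐ y ∂μ, ∀ (k : ℕ) (e : Fin k → ℝ), (∀ j, e j = 1 ∨ e j = -1) →
      Tendsto (freq {m | StandsAt (F y) e m}) atTop (𝓝 ((1 / 2) ^ k)) ∧
      (∀ i : ℕ, Tendsto (fun N => freq {m | m ∈ S i ∧ StandsAt (F y) e m} N - (1 / 2) ^ k * freq (S i) N)
        atTop (𝓝 0)) ∧
      ∀ (l : ℕ) (t : Fin l → ℝ), (∀ j, t j = 1 ∨ t j = -1) →
        Tendsto (fun N => freq {m | StandsAt liouville t m ∧ StandsAt (F y) e m} N -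
          (1 / 2) ^ k * freq {m | StandsAt liouville t m} N) atTop (𝓝 0) := by
  classical
  have hμ' : Pool.Agent.Helper34.FY.PositiveEntropy μ := ⟨hμ.prob, hμ.ergodic, hμ.undetermined⟩
  -- the function `λ F y` has the values of the process at the primes
  set f : Signs → ℕ → ℝ := fun y n => liouville n * F y n with hf
  have hll : ∀ n, liouville n * liouville n = 1 := fun n => by
    rcases liouville_or n with h | h <;> rw [h] <;> norm_num
  have hell : ∀ (w : ℕ → ℝ), (∀ n, |w n| ≤ 1) → ∀ H : Finset ℕ, H.Nonempty →
      ∀ᵐ y ∂μ, Tendsto (fun N : ℕ => (∑ n ∈ Finset.Icc 1 N, w n * ∏ h ∈ H, F y (n + h)) / (N : ℝ))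
        atTop (𝓝 0) := by
    intro w hw H hH
    have h := Pool.Agent.Helper34.FY.elliott hμ' (f := f)
      (fun y => by simp only [hf]; rw [(hF.mult y).one]; simp [liouville])
      (fun y m n hmn => by simp only [hf]; rw [(hF.mult y).mul m n hmn, liouville_mul m n hmn]; ring)
      (fun y n hn => by
        simp only [hf]
        rcases (hF.mult y).val n hn with h | h <;> rcases liouville_or n with h' | h' <;> simp [h, h'])
      (fun y j => by
        simp only [hf]
        rw [hF.prime y j, ← mul_assoc, hll, one_mul])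
      (fun j e => by
        simp only [hf]
        exact (hF.adapted j e).const_mul _)
      (fun n => w n * ∏ h ∈ H, liouville (n + h)) (fun n => by
        rw [abs_mul, Finset.abs_prod]
        refine mul_le_one₀ (hw n) (Finset.prod_nonneg fun _ _ => abs_nonneg _)
          (Finset.prod_le_one (fun _ _ => abs_nonneg _) fun h _ => ?_)
        rcases liouville_or (n + h) with h' | h' <;> rw [h'] <;> simp) H hH
    filter_upwards [h] with y hy
    refine hy.congr fun N => ?_
    congr 1
    refine Finset.sum_congr rfl fun n _ => ?_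
    rw [mul_assoc, ← Finset.prod_mul_distrib]
    congr 1
    refine Finset.prod_congr rfl fun h _ => ?_
    simp only [hf]
    rw [← mul_assoc, hll, one_mul]
  -- one set of places
  have hone : ∀ A : Set ℕ, ∀ᵐ y ∂μ, ∀ (k : ℕ) (e : Fin k → ℝ), (∀ j, e j = 1 ∨ e j = -1) →
      Tendsto (fun N => freq {m | m ∈ A ∧ StandsAt (F y) e m} N - (1 / 2) ^ k * freq A N)
        atTop (𝓝 0) := by
    intro A
    have h : ∀ᵐ y ∂μ, ∀ H : Finset ℕ, H.Nonempty →
        Tendsto (fun N : ℕ => (∑ n ∈ Finset.Icc 1 N, A.indicator (fun _ => (1 : ℝ)) n * ∏ h ∈ H, F y (n + h)) /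
          (N : ℝ)) atTop (𝓝 0) := by
      rw [ae_all_iff]
      intro H
      by_cases hH : H.Nonempty
      swap
      · exact Eventually.of_forall fun y h => absurd h hH
      filter_upwards [hell (fun n => A.indicator (fun _ => (1 : ℝ)) n) (fun n => by
        by_cases h : n ∈ A <;> simp [h]) H hH] with y hy _
      exact hy
    filter_upwards [h] with y hy k e he
    refine (Pool.Agent.Helper34.FY.patterns (fun n hn => (hF.mult y).val n hn)
      (fun n => A.indicator (fun _ => (1 : ℝ)) n) hy k e he).congr fun N => ?_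
    rw [freq_eq, freq_eq]
    congr 2
    refine Finset.sum_congr rfl fun m _ => ?_
    by_cases h1 : m ∈ A
    · rw [Set.indicator_of_mem h1, one_mul]
      by_cases h2 : ∀ j : Fin k, F y (m + (j + 1)) = e j
      · rw [if_pos h2, Set.indicator_of_mem (show m ∈ {m | m ∈ A ∧ StandsAt (F y) e m} from ⟨h1, h2⟩)]
      · rw [if_neg h2, Set.indicator_of_notMem (fun h : m ∈ {m | m ∈ A ∧ StandsAt (F y) e m} => h2 h.2)]
    · rw [Set.indicator_of_notMem h1, zero_mul,
        Set.indicator_of_notMem (fun h : m ∈ {m | m ∈ A ∧ StandsAt (F y) e m} => h1 h.1)]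
  have hA : ∀ᵐ y ∂μ, ∀ (k : ℕ) (e : Fin k → ℝ), (∀ j, e j = 1 ∨ e j = -1) →
      Tendsto (fun N => freq {m | m ∈ (Set.univ : Set ℕ) ∧ StandsAt (F y) e m} N -
        (1 / 2) ^ k * freq Set.univ N) atTop (𝓝 0) := hone Set.univ
  have hB : ∀ᵐ y ∂μ, ∀ (i : ℕ) (k : ℕ) (e : Fin k → ℝ), (∀ j, e j = 1 ∨ e j = -1) →
      Tendsto (fun N => freq {m | m ∈ S i ∧ StandsAt (F y) e m} N - (1 / 2) ^ k * freq (S i) N)
        atTop (𝓝 0) := by
    rw [ae_all_iff]
    exact fun i => hone (S i)
  have hC : ∀ᵐ y ∂μ, ∀ (l : ℕ) (b : Fin l → Bool) (k : ℕ) (e : Fin k → ℝ), (∀ j, e j = 1 ∨ e j = -1) →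
      Tendsto (fun N => freq {m | m ∈ {m | StandsAt liouville (fun j => if b j then 1 else -1) m} ∧
        StandsAt (F y) e m} N - (1 / 2) ^ k * freq {m | StandsAt liouville (fun j => if b j then 1 else -1) m} N)
        atTop (𝓝 0) := by
    rw [ae_all_iff]
    intro l
    rw [ae_all_iff]
    exact fun b => hone _
  filter_upwards [hA, hB, hC] with y h1 h2 h3 k e he
  refine ⟨?_, fun i => h2 i k e he, fun l t ht => ?_⟩
  · have h4 : Tendsto (freq Set.univ) atTop (𝓝 1) := by
      refine tendsto_const_nhds.congr' ?_
      filter_upwards [eventually_ge_atTop 1] with N hN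
      rw [freq_eq]
      have hN' : (N : ℝ) ≠ 0 := by positivity
      simp [hN']
    have h5 := (h1 k e he).add (h4.const_mul ((1 / 2 : ℝ) ^ k))
    rw [zero_add, mul_one] at h5
    refine h5.congr fun N => ?_
    rw [sub_add_cancel]
    congr 1
    ext m
    simp
  · have h4 := h3 l (fun j => decide (t j = 1)) k e he
    have h5 : (fun j => if (decide (t j = 1)) = true then (1 : ℝ) else -1) = t := by
      funext j
      rcases ht j with h | h
      · simp [h]
      · rw [h]
        norm_num
    rw [h5] at h4
    exact h4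

end Pool.Agent.Results.MP_4fffd4_nt.PositiveEntropyModifications
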